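import Mathlib

set_option autoImplicit false

namespace Pool.Agent.Results.MP_2432f5_co.Counter

/-- `w` encounters the pattern `p`; letters `Sum.inl a` of `p` are constants and letters
`Sum.inr x` are variables, replaced by nonempty words -/
def Enc {A : Type} (w : List A) (p : List (A ⊕ ℕ)) : Prop :=
  ∃ h : ℕ → List A, (∀ x, h x ≠ []) ∧ p.flatMap (Sum.elim (fun a => [a]) h) <:+: w

/-- `u` is a maximal `p`-free word -/
def Maximal {A : Type} (p : List (A ⊕ ℕ)) (u : List A) : Prop :=
  ¬ Enc u p ∧ ∀ a b : A, Enc (a :: u ++ [b]) p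

lemma key (u s : List (Fin 2)) (h : (0 :: s ++ [0]) <:+: (1 :: u ++ [1])) :
    (0 :: s ++ [0]) <:+: u := by
  rw [List.cons_append, List.cons_append, List.infix_cons_iff] at h
  rcases h with h | h
  · rw [List.cons_prefix_cons] at h
    exact absurd h.1 (by decide)
  · rw [← List.reverse_infix] at h ⊢
    simp only [List.reverse_cons, List.reverse_append, List.reverse_nil, List.nil_append,
      List.cons_append, List.singleton_append] at h ⊢
    rw [List.infix_cons_iff] at h
    rcases h with h | h
    · rw [List.cons_prefix_cons] at h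
      exact absurd h.1 (by decide)
    · exact h

theorem result : ¬ ∀ (k : ℕ) (p : List (Fin k ⊕ ℕ)), p ≠ [] → ∀ w : List (Fin k), ¬ Enc w p →
    ∃ u : List (Fin k), Maximal p u ∧ w <:+: u := by
  intro H
  obtain ⟨u, ⟨h1, h2⟩, -⟩ := H 2 [Sum.inl 0, Sum.inr 0, Sum.inl 0] (by simp) [1] (by
    rintro ⟨h, -, hh⟩
    have := hh.length_le
    simp at this)
  obtain ⟨h, h0, hh⟩ := h2 1 1
  refine h1 ⟨h, h0, ?_⟩
  have := key u (h 0) (by simpa using hh)
  simpa using this

end Pool.Agent.Results.MP_2432f5_co.Counter
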